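import Mathlib

/-!
Gaps between record values of the normalised surplus on odd non-deficient numbers: they are unbounded.

Every non-deficient product `N` of the odd primes up to a prime `q` is in `B₁`, and every odd non-deficient
`k < N` has `g k ≤ g N - (2 / q) √N`. So the gap just before `N` is at least `2 √N / q`, which is unbounded.
-/

set_option autoImplicit false

namespace Pool.Agent.Results.MP_e83726_nt.UnboundedGaps

open Finset

/-- `H(n) = ∏_{p ∣ n} p / (p - 1)`. -/
noncomputable def H (n : ℕ) : ℝ := ∏ p ∈ n.primeFactors, (p : ℝ) / ((p : ℝ) - 1)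

/-- `g(n) = (H(n) - 2) √n`. -/
noncomputable def g (n : ℕ) : ℝ := (H n - 2) * Real.sqrt n

/-- `n` is non-deficient: `σ(n) ≥ 2 n`. -/
def NonDeficient (n : ℕ) : Prop := 2 * n ≤ ∑ d ∈ n.divisors, d

/-- The odd non-deficient numbers setting a record for `g` among the odd non-deficient numbers. -/
def B₁ : Set ℕ := {n | Odd n ∧ NonDeficient n ∧ ∀ k < n, Odd k → NonDeficient k → g k < g n}

/-- `b j` is the element of index `j` (counted from `0`) of `B₁` in increasing order. -/
noncomputable def b (j : ℕ) : ℕ := Nat.nth (· ∈ B₁) j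

/-- The product of the odd primes up to `q`. -/
def P (q : ℕ) : ℕ := ∏ p ∈ (range (q + 1)).filter (fun p => p.Prime ∧ p ≠ 2), p

theorem factor_pos {p : ℕ} (hp : p.Prime) : (0 : ℝ) < (p : ℝ) / ((p : ℝ) - 1) := by
  have : (2 : ℝ) ≤ p := by exact_mod_cast hp.two_le
  apply div_pos <;> linarith

theorem factor_anti {p q : ℕ} (hp : p.Prime) (h : p ≤ q) :
    (q : ℝ) / ((q : ℝ) - 1) ≤ (p : ℝ) / ((p : ℝ) - 1) := by
  have h1 : (2 : ℝ) ≤ p := by exact_mod_cast hp.two_le
  have h2 : (p : ℝ) ≤ q := by exact_mod_cast h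
  rw [div_le_div_iff₀ (by linarith) (by linarith)]
  nlinarith

theorem one_le_factor {p : ℕ} (hp : p.Prime) : (1 : ℝ) ≤ (p : ℝ) / ((p : ℝ) - 1) := by
  have h1 : (2 : ℝ) ≤ p := by exact_mod_cast hp.two_le
  rw [le_div_iff₀ (by linarith)]
  linarith

theorem two_le_H {n : ℕ} (hn : n ≠ 0) (h : NonDeficient n) : 2 ≤ H n := by
  have h0 : (0 : ℝ) < n := by exact_mod_cast Nat.pos_of_ne_zero hn
  have h1 : ((∑ d ∈ n.divisors, d : ℕ) : ℝ) ≤ n * H n := by
    have h2 : (n : ℝ) = ∏ p ∈ n.primeFactors, (p : ℝ) ^ n.factorization p := by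
      have h3 := Nat.prod_factorization_pow_eq_self hn
      rw [Finsupp.prod, Nat.support_factorization] at h3
      exact_mod_cast h3.symm
    have h4 : (n : ℝ) * H n = ∏ p ∈ n.primeFactors, (p : ℝ) ^ n.factorization p * ((p : ℝ) / ((p : ℝ) - 1)) := by
      rw [Finset.prod_mul_distrib, ← h2]
      rfl
    rw [Nat.sum_divisors hn, h4]
    push_cast
    apply Finset.prod_le_prod
    · intro p _
      positivity
    · intro p hp
      have hp1 : (2 : ℝ) ≤ p := by exact_mod_cast (Nat.prime_of_mem_primeFactors hp).two_le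
      rw [geom_sum_eq (by linarith)]
      rw [mul_div_assoc', div_le_div_iff_of_pos_right (by linarith), pow_succ]
      linarith
  have h2 : (2 : ℝ) * n ≤ ((∑ d ∈ n.divisors, d : ℕ) : ℝ) := by
    exact_mod_cast h
  by_contra h3
  push Not at h3
  nlinarith

theorem P_pos (q : ℕ) : 0 < P q := by
  unfold P
  apply Finset.prod_pos
  intro p hp
  simp only [mem_filter] at hp
  exact hp.2.1.pos

theorem P_factors (q : ℕ) : (P q).primeFactors = (range (q + 1)).filter (fun p => p.Prime ∧ p ≠ 2) := by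
  unfold P
  apply Nat.primeFactors_prod
  intro p hp
  simp only [mem_filter] at hp
  exact hp.2.1

theorem P_odd (q : ℕ) : Odd (P q) := by
  unfold P
  apply Finset.prod_induction _ Odd (fun _ _ ha hb => ha.mul hb) odd_one
  intro p hp
  simp only [mem_filter] at hp
  exact hp.2.1.odd_of_ne_two hp.2.2

/-- the key comparison -/
theorem key {q k : ℕ} (hq : q.Prime) (hk : Odd k) (hlt : k < P q) :
    H k ≤ H (P q) * (1 - 1 / q) := by
  have hk0 : k ≠ 0 := by
    rintro rfl
    exact absurd hk (by decide)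
  have hq1 : (2 : ℝ) ≤ q := by exact_mod_cast hq.two_le
  set A := k.primeFactors with hA
  set B := (P q).primeFactors with hB
  have hBmem : ∀ p, p ∈ B ↔ p ≤ q ∧ p.Prime ∧ p ≠ 2 := by
    intro p
    rw [hB, P_factors]
    simp only [mem_filter, mem_range]
    constructor
    · rintro ⟨h1, h2, h3⟩
      exact ⟨by omega, h2, h3⟩
    · rintro ⟨h1, h2, h3⟩
      exact ⟨by omega, h2, h3⟩
  have hAp : ∀ p ∈ A, p.Prime := fun p hp => Nat.prime_of_mem_primeFactors hp
  have hBp : ∀ p ∈ B, p.Prime := fun p hp => Nat.prime_of_mem_primeFactors hp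
  have hAB : ∀ p ∈ A \ B, q ≤ p := by
    intro p hp
    rw [mem_sdiff] at hp
    by_contra h
    push Not at h
    apply hp.2
    rw [hBmem]
    refine ⟨h.le, hAp p hp.1, ?_⟩
    rintro rfl
    have := Nat.dvd_of_mem_primeFactors hp.1
    rw [← Nat.not_even_iff_odd] at hk
    exact hk (even_iff_two_dvd.mpr this)
  have hBA : ∀ p ∈ B \ A, p ≤ q := by
    intro p hp
    rw [mem_sdiff, hBmem] at hp
    exact hp.1.1
  have hprodB : ∏ p ∈ B, p = P q := by
    rw [hB, P_factors]
    rfl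
  have hprodA : ∏ p ∈ A, p ≤ k := Nat.le_of_dvd (Nat.pos_of_ne_zero hk0) (Nat.prod_primeFactors_dvd k)
  have h1 : ∏ p ∈ A \ B, p < ∏ p ∈ B \ A, p := by
    have h2 : (∏ p ∈ A \ B, p) * ∏ p ∈ A ∩ B, p = ∏ p ∈ A, p := by
      have := Finset.prod_sdiff (f := fun p : ℕ => p) (Finset.inter_subset_left (s₁ := A) (s₂ := B))
      rwa [Finset.sdiff_inter_self_left] at this
    have h3 : (∏ p ∈ B \ A, p) * ∏ p ∈ A ∩ B, p = ∏ p ∈ B, p := by
      have := Finset.prod_sdiff (f := fun p : ℕ => p) (Finset.inter_subset_left (s₁ := B) (s₂ := A))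
      rwa [Finset.sdiff_inter_self_left, Finset.inter_comm] at this
    have h4 : (∏ p ∈ A \ B, p) * ∏ p ∈ A ∩ B, p < (∏ p ∈ B \ A, p) * ∏ p ∈ A ∩ B, p := by
      rw [h2, h3, hprodB]
      exact lt_of_le_of_lt hprodA hlt
    exact lt_of_mul_lt_mul_right h4 (Nat.zero_le _)
  have hcard : (A \ B).card < (B \ A).card := by
    have h2 : q ^ (A \ B).card ≤ ∏ p ∈ A \ B, p := Finset.pow_card_le_prod _ _ _ hAB
    have h3 : ∏ p ∈ B \ A, p ≤ q ^ (B \ A).card := Finset.prod_le_pow_card _ _ _ hBA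
    exact (Nat.pow_lt_pow_iff_right hq.one_lt).mp (by omega)
  set r : ℝ := (q : ℝ) / ((q : ℝ) - 1) with hr
  have hr1 : 1 ≤ r := one_le_factor hq
  set F : ℕ → ℝ := fun p => (p : ℝ) / ((p : ℝ) - 1) with hF
  have hHk : H k = (∏ p ∈ A \ B, F p) * ∏ p ∈ A ∩ B, F p := by
    have := Finset.prod_sdiff (f := F) (Finset.inter_subset_left (s₁ := A) (s₂ := B))
    rw [Finset.sdiff_inter_self_left] at this
    rw [this]
    rfl
  have hHN : H (P q) = (∏ p ∈ B \ A, F p) * ∏ p ∈ A ∩ B, F p := by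
    have := Finset.prod_sdiff (f := F) (Finset.inter_subset_left (s₁ := B) (s₂ := A))
    rw [Finset.sdiff_inter_self_left, Finset.inter_comm] at this
    rw [this]
    rfl
  have hI : 0 ≤ ∏ p ∈ A ∩ B, F p := Finset.prod_nonneg fun p hp =>
    (factor_pos (hAp p (Finset.mem_inter.mp hp).1)).le
  have h5 : ∏ p ∈ A \ B, F p ≤ r ^ (A \ B).card := by
    rw [← Finset.prod_const]
    exact Finset.prod_le_prod (fun p hp => (factor_pos (hAp p (Finset.mem_sdiff.mp hp).1)).le)
      fun p hp => factor_anti hq (hAB p hp)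
  have h6 : r ^ (B \ A).card ≤ ∏ p ∈ B \ A, F p := by
    rw [← Finset.prod_const]
    exact Finset.prod_le_prod (fun p _ => by linarith)
      fun p hp => factor_anti (hBp p (Finset.mem_sdiff.mp hp).1) (hBA p hp)
  have h7 : r ^ (A \ B).card ≤ r ^ (B \ A).card * (1 - 1 / q) := by
    have h8 : r ^ ((A \ B).card + 1) ≤ r ^ (B \ A).card := pow_le_pow_right₀ hr1 hcard
    have h9 : r * (1 - 1 / (q : ℝ)) = 1 := by
      rw [hr]
      field_simp
      rw [div_self]
      intro h
      linarith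
    have h10 : 0 ≤ 1 - 1 / (q : ℝ) := by
      rw [sub_nonneg, div_le_one (by linarith)]
      linarith
    calc r ^ (A \ B).card = r ^ ((A \ B).card + 1) * (1 - 1 / q) := by
          rw [pow_succ, mul_assoc, h9, mul_one]
      _ ≤ _ := mul_le_mul_of_nonneg_right h8 h10
  rw [hHk, hHN]
  have h10 : 0 ≤ 1 - 1 / (q : ℝ) := by
    rw [sub_nonneg, div_le_one (by linarith)]
    linarith
  calc (∏ p ∈ A \ B, F p) * ∏ p ∈ A ∩ B, F p ≤ r ^ (A \ B).card * ∏ p ∈ A ∩ B, F p :=
        mul_le_mul_of_nonneg_right h5 hI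
    _ ≤ (r ^ (B \ A).card * (1 - 1 / q)) * ∏ p ∈ A ∩ B, F p := mul_le_mul_of_nonneg_right h7 hI
    _ ≤ ((∏ p ∈ B \ A, F p) * (1 - 1 / q)) * ∏ p ∈ A ∩ B, F p :=
        mul_le_mul_of_nonneg_right (mul_le_mul_of_nonneg_right h6 h10) hI
    _ = _ := by ring

/-- the consequence for `g` -/
theorem key_g {q k : ℕ} (hq : q.Prime) (hk : Odd k) (hkn : NonDeficient k) (hlt : k < P q) :
    g k + 2 / q * Real.sqrt (P q) ≤ g (P q) := by
  have hq1 : (0 : ℝ) < q := by exact_mod_cast hq.pos
  have hk0 : k ≠ 0 := by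
    rintro rfl
    exact absurd hk (by decide)
  have h1 := key hq hk hlt
  have h2 := two_le_H hk0 hkn
  have h3 : 2 ≤ H (P q) := by
    by_contra h
    push Not at h
    have h4 : H (P q) * (1 - 1 / q) ≤ H (P q) := by
      have h5 : 0 ≤ H (P q) := Finset.prod_nonneg fun p hp => (factor_pos (Nat.prime_of_mem_primeFactors hp)).le
      have h6 : 0 ≤ 1 / (q : ℝ) := by positivity
      nlinarith
    linarith
  have h4 : Real.sqrt k ≤ Real.sqrt (P q) := Real.sqrt_le_sqrt (by exact_mod_cast hlt.le)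
  have h5 : 0 ≤ Real.sqrt (P q) := Real.sqrt_nonneg _
  unfold g
  have h6 : (H k - 2) * Real.sqrt k ≤ (H k - 2) * Real.sqrt (P q) :=
    mul_le_mul_of_nonneg_left h4 (by linarith)
  have h7 : H k - 2 + 2 / q ≤ H (P q) - 2 := by
    have h8 : H (P q) * (1 - 1 / q) = H (P q) - H (P q) / q := by ring
    have h9 : 2 / (q : ℝ) ≤ H (P q) / q := by gcongr
    linarith
  calc (H k - 2) * Real.sqrt k + 2 / q * Real.sqrt (P q)
      ≤ (H k - 2) * Real.sqrt (P q) + 2 / q * Real.sqrt (P q) := by linarith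
    _ = (H k - 2 + 2 / q) * Real.sqrt (P q) := by ring
    _ ≤ (H (P q) - 2) * Real.sqrt (P q) := mul_le_mul_of_nonneg_right h7 h5

theorem mem_B {q : ℕ} (hq : q.Prime) (h : NonDeficient (P q)) : P q ∈ B₁ := by
  refine ⟨P_odd q, h, fun k hk hk1 hk2 => ?_⟩
  have h1 := key_g hq hk1 hk2 hk
  have h2 : 0 < 2 / (q : ℝ) * Real.sqrt (P q) := by
    have hq1 : (0 : ℝ) < q := by exact_mod_cast hq.pos
    have h3 : (0 : ℝ) < P q := by exact_mod_cast P_pos q
    have := Real.sqrt_pos.mpr h3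
    positivity
  linarith

/-- the products of odd primes are non-deficient from some point on -/
theorem exists_nonDeficient : ∃ q₀ : ℕ, ∀ q, q₀ ≤ q → NonDeficient (P q) := by
  have h0 := not_summable_one_div_on_primes
  rw [not_summable_iff_tendsto_nat_atTop_of_nonneg
    (fun n => Set.indicator_nonneg (fun p _ => by positivity) _)] at h0
  obtain ⟨q₀, h1⟩ := Filter.eventually_atTop.mp (h0.eventually_ge_atTop 3)
  refine ⟨q₀, fun q hq => ?_⟩
  have h2 := h1 (q + 1) (by omega)
  have h3 : ∑ i ∈ range (q + 1), Set.indicator {p : ℕ | p.Prime} (fun n : ℕ => (1 : ℝ) / n) i ≤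
      1 / 2 + ∑ p ∈ (P q).primeFactors, (1 : ℝ) / p := by
    rw [P_factors, ← Finset.sum_filter_add_sum_filter_not (range (q + 1)) (fun p => p.Prime ∧ p ≠ 2), add_comm]
    apply add_le_add
    · calc ∑ i ∈ (range (q + 1)).filter (fun p => ¬ (p.Prime ∧ p ≠ 2)),
            Set.indicator {p : ℕ | p.Prime} (fun n : ℕ => (1 : ℝ) / n) i
          ≤ ∑ i ∈ (range (q + 1)).filter (fun p => ¬ (p.Prime ∧ p ≠ 2)), if i = 2 then (1 : ℝ) / 2 else 0 := by
            apply Finset.sum_le_sum
            intro i hi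
            simp only [mem_filter, not_and, not_not] at hi
            by_cases hp : i.Prime
            · have := hi.2 hp
              subst this
              rw [Set.indicator_of_mem (by simpa using hp)]
              simp
            · rw [Set.indicator_of_notMem (by simpa using hp)]
              split_ifs <;> norm_num
        _ ≤ 1 / 2 := by
            rw [Finset.sum_ite_eq']
            split_ifs <;> norm_num
    · apply Finset.sum_le_sum
      intro i hi
      simp only [mem_filter] at hi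
      rw [Set.indicator_of_mem (by simpa using hi.2.1)]
  have h4 : ∑ p ∈ (P q).primeFactors, P q / p ≤ ∑ d ∈ (P q).divisors, d := by
    rw [← Finset.sum_image (f := fun d : ℕ => d) (g := fun p : ℕ => P q / p) (s := (P q).primeFactors)]
    · apply Finset.sum_le_sum_of_subset
      intro d hd
      rw [Finset.mem_image] at hd
      obtain ⟨p, hp, rfl⟩ := hd
      rw [Nat.mem_divisors]
      exact ⟨Nat.div_dvd_of_dvd (Nat.dvd_of_mem_primeFactors hp), (P_pos q).ne'⟩
    · intro a ha c hc hac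
      have ha1 := Nat.dvd_of_mem_primeFactors (Finset.mem_coe.mp ha)
      have hc1 := Nat.dvd_of_mem_primeFactors (Finset.mem_coe.mp hc)
      have h5 : P q / a = P q / c := hac
      have h6 := Nat.div_mul_cancel ha1
      have h7 := Nat.div_mul_cancel hc1
      rw [h5] at h6
      have h8 : 0 < P q / c := Nat.div_pos (Nat.le_of_dvd (P_pos q) hc1) (Nat.pos_of_dvd_of_pos hc1 (P_pos q))
      exact Nat.eq_of_mul_eq_mul_left h8 (h6.trans h7.symm)
  have h5 : ((∑ p ∈ (P q).primeFactors, P q / p : ℕ) : ℝ) = P q * ∑ p ∈ (P q).primeFactors, (1 : ℝ) / p := by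
    rw [Finset.mul_sum]
    push_cast
    apply Finset.sum_congr rfl
    intro p hp
    rw [Nat.cast_div (Nat.dvd_of_mem_primeFactors hp)
      (by exact_mod_cast (Nat.prime_of_mem_primeFactors hp).ne_zero)]
    ring
  have h6 : (0 : ℝ) < P q := by exact_mod_cast P_pos q
  have h7 : (2 : ℝ) * P q ≤ ((∑ p ∈ (P q).primeFactors, P q / p : ℕ) : ℝ) := by
    rw [h5]
    nlinarith
  have h8 : 2 * P q ≤ ∑ p ∈ (P q).primeFactors, P q / p := by exact_mod_cast h7
  exact h8.trans h4

/-- the product is at least `q ^ 3 / 8` -/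
theorem P_large {q : ℕ} (hq : q.Prime) (h12 : 12 < q) : (q : ℝ) ^ 3 / 8 ≤ P q := by
  obtain ⟨q₁, hp₁, h1, h2⟩ := Nat.exists_prime_lt_and_le_two_mul ((q - 1) / 2) (by omega)
  obtain ⟨q₂, hp₂, h3, h4⟩ := Nat.exists_prime_lt_and_le_two_mul ((q₁ - 1) / 2) (by omega)
  have hsub : ({q, q₁, q₂} : Finset ℕ) ⊆ (range (q + 1)).filter (fun p => p.Prime ∧ p ≠ 2) := by
    intro p hp
    simp only [mem_insert, mem_singleton] at hp
    simp only [mem_filter, mem_range]
    rcases hp with rfl | rfl | rfl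
    · exact ⟨by omega, hq, by omega⟩
    · exact ⟨by omega, hp₁, by omega⟩
    · exact ⟨by omega, hp₂, by omega⟩
  have h5 : ∏ p ∈ ({q, q₁, q₂} : Finset ℕ), p ≤ P q := by
    apply Nat.le_of_dvd (P_pos q)
    exact Finset.prod_dvd_prod_of_subset _ _ _ hsub
  rw [Finset.prod_insert (by simp only [mem_insert, mem_singleton]; omega), Finset.prod_insert (by simp; omega),
    Finset.prod_singleton] at h5
  have h6 : (q : ℝ) ≤ 2 * q₁ := by
    have : q ≤ 2 * q₁ := by omega
    exact_mod_cast this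
  have h7 : (q : ℝ) ≤ 4 * q₂ := by
    have : q ≤ 4 * q₂ := by omega
    exact_mod_cast this
  have h8 : (q : ℝ) * (q₁ * q₂) ≤ P q := by exact_mod_cast h5
  have h0 : (0 : ℝ) ≤ q := by positivity
  refine le_trans ?_ h8
  have h9 : (q : ℝ) / 2 * (q / 4) ≤ q₁ * q₂ := mul_le_mul (by linarith) (by linarith) (by positivity) (by positivity)
  calc (q : ℝ) ^ 3 / 8 = q * (q / 2 * (q / 4)) := by ring
    _ ≤ _ := mul_le_mul_of_nonneg_left h9 h0

/-- **The gaps are unbounded.** The set `B₁` is infinite, so that `b 0 < b 1 < ⋯` lists its elements in increasing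
order, and for every real `M` there is `j` with `g (b (j + 1)) - g (b j) > M`. -/
theorem result : B₁.Infinite ∧ ∀ M : ℝ, ∃ j : ℕ, M < g (b (j + 1)) - g (b j) := by
  classical
  obtain ⟨q₀, hq₀⟩ := exists_nonDeficient
  have hinf : B₁.Infinite := by
    rw [Set.infinite_iff_exists_gt]
    intro a
    obtain ⟨q, hq, hqp⟩ := Nat.exists_infinite_primes (a + q₀ + 13)
    refine ⟨P q, mem_B hqp (hq₀ q (by omega)), ?_⟩
    have h1 : q ∣ P q := by
      unfold P
      apply Finset.dvd_prod_of_mem (fun p : ℕ => p)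
      simp only [mem_filter, mem_range]
      exact ⟨by omega, hqp, by omega⟩
    have := Nat.le_of_dvd (P_pos q) h1
    omega
  refine ⟨hinf, fun M => ?_⟩
  -- an element of B₁
  obtain ⟨n₀, hn₀⟩ := hinf.nonempty
  obtain ⟨q, hq, hqp⟩ := Nat.exists_infinite_primes (n₀ + q₀ + 13 + 2 * Nat.ceil (M ^ 2) + 1)
  have hmem : P q ∈ B₁ := mem_B hqp (hq₀ q (by omega))
  have hlt : n₀ < P q := by
    have h1 : q ∣ P q := by
      unfold P
      apply Finset.dvd_prod_of_mem (fun p : ℕ => p)
      simp only [mem_filter, mem_range]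
      exact ⟨by omega, hqp, by omega⟩
    have := Nat.le_of_dvd (P_pos q) h1
    omega
  set c := Nat.count (· ∈ B₁) (P q) with hc
  have hc1 : b c = P q := Nat.nth_count (p := (· ∈ B₁)) hmem
  have hc0 : 0 < c := by
    by_contra h
    have h1 : Nat.nth (· ∈ B₁) 0 ≤ n₀ := by
      rw [Nat.nth_zero]
      exact Nat.sInf_le hn₀
    have h2 : b 0 = P q := by
      rw [← hc1]
      congr 1
      omega
    have h3 : b 0 ≤ n₀ := h1
    omega
  obtain ⟨j, hj⟩ : ∃ j, c = j + 1 := ⟨c - 1, by omega⟩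
  refine ⟨j, ?_⟩
  rw [← hj, hc1]
  have hbj : b j ∈ B₁ := Nat.nth_mem_of_infinite hinf j
  have hbl : b j < P q := by
    rw [← hc1, hj]
    exact Nat.nth_strictMono hinf (Nat.lt_succ_self j)
  have h1 := key_g hqp hbj.1 hbj.2.1 hbl
  have hq1 : (0 : ℝ) < q := by exact_mod_cast hqp.pos
  have h2 : M < 2 / q * Real.sqrt (P q) := by
    have h3 : Real.sqrt ((q : ℝ) ^ 3 / 8) ≤ Real.sqrt (P q) := Real.sqrt_le_sqrt (P_large hqp (by omega))
    have h4 : 2 / (q : ℝ) * Real.sqrt ((q : ℝ) ^ 3 / 8) = Real.sqrt (q / 2) := by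
      symm
      rw [Real.sqrt_eq_iff_mul_self_eq (by positivity) (by positivity)]
      rw [mul_mul_mul_comm, Real.mul_self_sqrt (by positivity)]
      field_simp
      norm_num
    have h5 : M < Real.sqrt (q / 2) := by
      apply Real.lt_sqrt_of_sq_lt
      have h6 : (2 * Nat.ceil (M ^ 2) + 1 : ℕ) ≤ q := by omega
      have h7 : (2 * (Nat.ceil (M ^ 2) : ℝ) + 1) ≤ q := by exact_mod_cast h6
      have h8 := Nat.le_ceil (M ^ 2)
      linarith
    rw [← h4] at h5
    exact h5.trans_le (mul_le_mul_of_nonneg_left h3 (by positivity))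
  linarith

end Pool.Agent.Results.MP_e83726_nt.UnboundedGaps
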